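import Mathlib

/-!
# Which submonoids of `(F, ∘)` are of the form `P_X`?

A complete characterization, for all submonoids of the monoid of all functions `[0,∞) → [0,∞)`.
-/

namespace Pool.Agent.Results.MP_6117a1_gt.Characterization

open scoped NNReal

universe u v

/-- `ρ : Y × Y → [0,∞)` is a metric on `Y`. -/
def IsMetric {Y : Type u} (ρ : Y → Y → ℝ≥0) : Prop :=
  (∀ x y, ρ x y = 0 ↔ x = y) ∧ (∀ x y, ρ x y = ρ y x) ∧ ∀ x y z, ρ x z ≤ ρ x y + ρ y z

/-- A class of nonempty metric spaces, whose underlying sets are members of a family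
`Y : ι → Type u`. -/
structure MetricClass {ι : Type v} (Y : ι → Type u) where
  /-- the pair `(Y i, ρ)` belongs to the class -/
  mem : (i : ι) → (Y i → Y i → ℝ≥0) → Prop
  /-- every member is a nonempty metric space -/
  isMetric : ∀ (i : ι) (ρ : Y i → Y i → ℝ≥0), mem i ρ → Nonempty (Y i) ∧ IsMetric ρ

/-- The set `P_X` of all functions `f : [0,∞) → [0,∞)` that preserve the class `X`: whenever
`(Y i, ρ)` is in `X`, so is `(Y i, f ∘ ρ)`. -/
def Preservers {ι : Type v} {Y : ι → Type u} (X : MetricClass Y) : Set (ℝ≥0 → ℝ≥0) :=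
  {f | ∀ (i : ι) (ρ : Y i → Y i → ℝ≥0), X.mem i ρ → X.mem i (fun x y => f (ρ x y))}

/-- `A` is a submonoid of the monoid of all functions `[0,∞) → [0,∞)` under composition. -/
def IsSubmonoid (A : Set (ℝ≥0 → ℝ≥0)) : Prop :=
  id ∈ A ∧ ∀ f ∈ A, ∀ g ∈ A, f ∘ g ∈ A

/-- A submonoid `A` of `(F, ∘)` is of the form `P_X` for a class `X` of nonempty metric spaces if
and only if every `f ∉ A` is separated from `A` by a nonempty metric space `(Y, ρ)` that all the
elements of `A` transform into metric spaces: `f ∘ ρ ≠ a ∘ ρ` for all `a ∈ A`. -/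
theorem result (A : Set (ℝ≥0 → ℝ≥0)) (hA : IsSubmonoid A) :
    (∃ (ι : Type v) (Y : ι → Type u) (X : MetricClass Y), Preservers X = A) ↔
      ∀ f ∉ A, ∃ (Y : Type u) (ρ : Y → Y → ℝ≥0), Nonempty Y ∧
        (∀ a ∈ A, IsMetric (fun x y => a (ρ x y))) ∧
          ∀ a ∈ A, (fun x y => f (ρ x y)) ≠ fun x y => a (ρ x y) := by
  constructor
  · rintro ⟨ι, Y, X, hX⟩ f hf
    rw [← hX] at hf
    simp only [Preservers, Set.mem_ofPred_eq, not_forall] at hf
    obtain ⟨i, ρ, hρ, hfρ⟩ := hf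
    refine ⟨Y i, ρ, (X.isMetric i ρ hρ).1, ?_, ?_⟩
    · intro a ha
      rw [← hX] at ha
      exact (X.isMetric _ _ (ha i ρ hρ)).2
    · intro a ha heq
      rw [← hX] at ha
      apply hfρ
      rw [heq]
      exact ha i ρ hρ
  · intro h
    choose! Y ρ hY hm hne using h
    refine ⟨ULift.{v} {f : ℝ≥0 → ℝ≥0 // f ∉ A}, fun i => Y i.down.1,
      ⟨fun i σ => ∃ a ∈ A, σ = fun x y => a (ρ i.down.1 x y), ?_⟩, ?_⟩
    · rintro i σ ⟨a, ha, rfl⟩
      exact ⟨hY _ i.down.2, hm _ i.down.2 a ha⟩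
    · ext f
      constructor
      · intro hf
        by_contra hfA
        obtain ⟨a, ha, heq⟩ := hf ⟨f, hfA⟩ (ρ f) ⟨id, hA.1, rfl⟩
        exact hne f hfA a ha heq
      · rintro hf i σ ⟨a, ha, rfl⟩
        exact ⟨f ∘ a, hA.2 f hf a ha, rfl⟩

end Pool.Agent.Results.MP_6117a1_gt.Characterization
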