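import Mathlib

/-!
# A submonoid of the amenable functions that is not of the form `P_X`

We disprove Q1 of MP_6117a1_gt: the set of all bijections of `[0,∞)` that fix `0` is a submonoid
(indeed a subgroup) of the monoid of amenable functions, and it is not the set of functions
preserving any class of nonempty metric spaces.
-/

namespace Pool.Agent.Results.MP_6117a1_gt.Disproof

open scoped NNReal

universe u v

/-- `ρ : Y × Y → [0,∞)` is a metric on `Y`. -/
def IsMetric {Y : Type u} (ρ : Y → Y → ℝ≥0) : Prop :=
  (∀ x y, ρ x y = 0 ↔ x = y) ∧ (∀ x y, ρ x y = ρ y x) ∧ ∀ x y z, ρ x z ≤ ρ x y + ρ y z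

/-- A class of nonempty metric spaces. The admissible underlying sets form an arbitrary family
`Y : ι → Type u` (for instance all types, with `ι = Type u` and `Y = id`, or all sets, with `ι`
a model of set theory and `Y i` the set of elements of `i`), and the class is a property of pairs
`(Y i, ρ)` which implies that `Y i` is nonempty and that `ρ` is a metric on `Y i`. -/
structure MetricClass {ι : Type v} (Y : ι → Type u) where
  /-- the pair `(Y i, ρ)` belongs to the class -/
  mem : (i : ι) → (Y i → Y i → ℝ≥0) → Prop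
  /-- every member is a nonempty metric space -/
  isMetric : ∀ (i : ι) (ρ : Y i → Y i → ℝ≥0), mem i ρ → Nonempty (Y i) ∧ IsMetric ρ

/-- The set `P_X` of all functions `f : [0,∞) → [0,∞)` that preserve the class `X`: whenever
`(Y i, ρ)` is in `X`, so is `(Y i, f ∘ ρ)`. -/
def Preservers {ι : Type v} {Y : ι → Type u} (X : MetricClass Y) : Set (ℝ≥0 → ℝ≥0) :=
  {f | ∀ (i : ι) (ρ : Y i → Y i → ℝ≥0), X.mem i ρ → X.mem i (fun x y => f (ρ x y))}

/-- The set `Am` of amenable functions, i.e. those with `f⁻¹(0) = {0}`. -/
def Am : Set (ℝ≥0 → ℝ≥0) := {f | f ⁻¹' {0} = {0}}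

/-- `A` is a submonoid of the monoid of all functions `[0,∞) → [0,∞)` under composition. -/
def IsSubmonoid (A : Set (ℝ≥0 → ℝ≥0)) : Prop :=
  id ∈ A ∧ ∀ f ∈ A, ∀ g ∈ A, f ∘ g ∈ A

/-- The bijections of `[0,∞)` that fix `0`. -/
def Bij : Set (ℝ≥0 → ℝ≥0) := {f | Function.Bijective f ∧ f 0 = 0}

theorem bij_subset_am : Bij ⊆ Am := by
  rintro f ⟨hf, h0⟩
  ext t
  simp only [Set.mem_preimage, Set.mem_singleton_iff]
  constructor
  · intro h
    exact hf.1 (h.trans h0.symm)
  · rintro rfl
    exact h0

theorem bij_isSubmonoid : IsSubmonoid Bij := by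
  refine ⟨⟨Function.bijective_id, rfl⟩, ?_⟩
  rintro f ⟨hf, hf0⟩ g ⟨hg, hg0⟩
  exact ⟨hf.comp hg, by simp [hf0, hg0]⟩

/-- Swapping two positive numbers is in `Bij`. -/
theorem swap_mem (a b : ℝ≥0) (ha : a ≠ 0) (hb : b ≠ 0) : (Equiv.swap a b : ℝ≥0 → ℝ≥0) ∈ Bij := by
  refine ⟨(Equiv.swap a b).bijective, ?_⟩
  exact Equiv.swap_apply_of_ne_of_ne ha.symm hb.symm

/-- If every bijection fixing `0` turns `ρ` into a metric, then any triangle of `ρ` with distinct
vertices is equilateral. -/
theorem equilateral {Y : Type u} {ρ : Y → Y → ℝ≥0}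
    (h : ∀ f ∈ Bij, IsMetric (fun x y => f (ρ x y))) (x y z : Y) (hxy : x ≠ y) (hxz : x ≠ z)
    (hyz : y ≠ z) : ρ x y = ρ x z := by
  by_contra hne
  have hid : IsMetric ρ := h id bij_isSubmonoid.1
  have pos : ∀ s t : Y, s ≠ t → ρ s t ≠ 0 := fun s t hst h0 => hst ((hid.1 s t).1 h0)
  have hsymm := hid.2.1
  -- choose a huge number `K`, and map `ρ x y` to `K`, keeping the other distances (or mapping
  -- them below `K / 2`)
  set a := ρ x y with ha
  set b := ρ x z with hb
  set c := ρ y z with hc
  have ha0 : a ≠ 0 := pos x y hxy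
  have hb0 : b ≠ 0 := pos x z hxz
  have hc0 : c ≠ 0 := pos y z hyz
  by_cases hca : c = a
  · -- triangle with sides `a, a, b`: make `b` huge
    set K : ℝ≥0 := a + a + b + 1 with hK
    have hK0 : K ≠ 0 := by positivity
    have hbij := swap_mem b K hb0 hK0
    have hm := h _ hbij
    have htri := hm.2.2 x y z
    have haK : a ≠ K := by
      intro h'
      have : a < K := by
        rw [hK]
        calc a < a + 1 := by exact lt_add_one a
          _ ≤ a + a + b + 1 := by
            gcongr
            rw [add_assoc]
            exact le_self_add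
      exact this.ne h'
    have e1 : (Equiv.swap b K) (ρ x z) = K := by rw [← hb]; exact Equiv.swap_apply_left b K
    have e2 : (Equiv.swap b K) (ρ x y) = a := by
      rw [← ha]; exact Equiv.swap_apply_of_ne_of_ne hne haK
    have e3 : (Equiv.swap b K) (ρ y z) = a := by
      rw [← hc, hca]; exact Equiv.swap_apply_of_ne_of_ne hne haK
    simp only [e1, e2, e3] at htri
    have : a + a < K := by
      rw [hK]
      calc a + a < a + a + 1 := lt_add_one _
        _ ≤ a + a + b + 1 := add_le_add le_self_add le_rfl
    exact absurd htri (not_le.mpr this)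
  · -- `a` differs from both `b` and `c`: make `a` huge
    set K : ℝ≥0 := a + b + c + 1 with hK
    have hK0 : K ≠ 0 := by positivity
    have hbij := swap_mem a K ha0 hK0
    have hm := h _ hbij
    have htri := hm.2.2 x z y
    have hbK : b ≠ K := by
      intro h'
      have : b < K := by
        rw [hK]
        calc b < b + 1 := lt_add_one b
          _ ≤ a + b + c + 1 := by
            gcongr
            calc b ≤ a + b := le_add_self
              _ ≤ a + b + c := le_self_add
      exact this.ne h'
    have hcK : c ≠ K := by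
      intro h'
      have : c < K := by
        rw [hK]
        calc c < c + 1 := lt_add_one c
          _ ≤ a + b + c + 1 := by
            gcongr
            exact le_add_self
      exact this.ne h'
    have e1 : (Equiv.swap a K) (ρ x y) = K := by rw [← ha]; exact Equiv.swap_apply_left a K
    have e2 : (Equiv.swap a K) (ρ x z) = b := by
      rw [← hb]; exact Equiv.swap_apply_of_ne_of_ne (Ne.symm hne) hbK
    have e3 : (Equiv.swap a K) (ρ z y) = c := by
      rw [hsymm z y, ← hc]; exact Equiv.swap_apply_of_ne_of_ne hca hcK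
    simp only [e1, e2, e3] at htri
    have : b + c < K := by
      rw [hK]
      calc b + c < b + c + 1 := lt_add_one _
        _ ≤ a + b + c + 1 := by
          gcongr
          exact le_add_self
    exact absurd htri (not_le.mpr this)

/-- If every bijection fixing `0` turns `ρ` into a metric, then `ρ` is a discrete metric. -/
theorem discrete {Y : Type u} {ρ : Y → Y → ℝ≥0}
    (h : ∀ f ∈ Bij, IsMetric (fun x y => f (ρ x y))) (x y z w : Y) (hxy : x ≠ y) (hzw : z ≠ w) :
    ρ x y = ρ z w := by
  have hid : IsMetric ρ := h id bij_isSubmonoid.1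
  have hsymm := hid.2.1
  -- any two pairs sharing the first point have the same distance
  have key : ∀ p q r : Y, p ≠ q → p ≠ r → ρ p q = ρ p r := by
    intro p q r hpq hpr
    by_cases hqr : q = r
    · rw [hqr]
    · exact equilateral h p q r hpq hpr hqr
  by_cases hxz : x = z
  · subst hxz
    exact key x y w hxy hzw
  · calc ρ x y = ρ x z := key x y z hxy hxz
      _ = ρ z x := hsymm x z
      _ = ρ z w := key z x w (Ne.symm hxz) hzw

/-- A non-injective amenable function. -/
noncomputable def g : ℝ≥0 → ℝ≥0 := fun t => if t = 0 then 0 else 1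

theorem g_not_mem : g ∉ Bij := by
  rintro ⟨hb, -⟩
  have h1 : g 1 = g 2 := by simp [g]
  have := hb.1 h1
  norm_num at this

/-- **Answer to Q1 (negative).** There is a submonoid `A` of the monoid `Am` of amenable functions
such that `P_X ≠ A` for every class `X` of nonempty metric spaces. -/
theorem result : ∃ A : Set (ℝ≥0 → ℝ≥0), A ⊆ Am ∧ IsSubmonoid A ∧
    ∀ (ι : Type v) (Y : ι → Type u) (X : MetricClass Y), Preservers X ≠ A := by
  refine ⟨Bij, bij_subset_am, bij_isSubmonoid, ?_⟩
  intro ι Y X hX
  -- every space in `X` is discrete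
  have hdisc : ∀ (i : ι) (ρ : Y i → Y i → ℝ≥0), X.mem i ρ →
      ∀ x y z w : Y i, x ≠ y → z ≠ w → ρ x y = ρ z w := by
    intro i ρ hρ
    apply discrete
    intro f hf
    have hf' : f ∈ Preservers X := by rw [hX]; exact hf
    exact (X.isMetric _ _ (hf' i ρ hρ)).2
  -- hence the function `g` preserves `X`
  have hg : g ∈ Preservers X := by
    intro i ρ hρ
    have hm := (X.isMetric _ _ hρ).2
    by_cases hY : ∃ x y : Y i, x ≠ y
    · obtain ⟨x, y, hxy⟩ := hY
      have h0 : ρ x y ≠ 0 := fun h => hxy ((hm.1 x y).1 h)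
      have hs := swap_mem (ρ x y) 1 h0 one_ne_zero
      have hs' : (Equiv.swap (ρ x y) 1 : ℝ≥0 → ℝ≥0) ∈ Preservers X := by rw [hX]; exact hs
      have := hs' i ρ hρ
      convert this using 3 with s t
      by_cases hst : s = t
      · have : ρ s t = 0 := (hm.1 s t).2 hst
        rw [this]
        simp only [g, if_true]
        exact (Equiv.swap_apply_of_ne_of_ne (Ne.symm h0) zero_ne_one).symm
      · have h1 : ρ s t = ρ x y := hdisc i ρ hρ s t x y hst hxy
        have h2 : ρ s t ≠ 0 := by rw [h1]; exact h0
        rw [h1] at h2 ⊢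
        simp only [g, if_neg h2]
        exact (Equiv.swap_apply_left _ _).symm
    · push Not at hY
      have : (fun x y => g (ρ x y)) = ρ := by
        funext s t
        have : ρ s t = 0 := (hm.1 s t).2 (hY s t)
        rw [this]
        simp [g]
      rw [this]
      exact hρ
  rw [hX] at hg
  exact g_not_mem hg

end Pool.Agent.Results.MP_6117a1_gt.Disproof
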